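import Pool.Agent.Helper39.CR.GoalsT

/-!
# Project CAR stage 3, packet TTOW: the graded parts form a tower with dense union.
-/

open scoped ComplexOrder ZeroAtInfty
open TopologicalSpace

namespace Pool.Agent.Helper91.CR

open Pool.Agent.Helper34.CAR Pool.Agent.Helper39.CR

theorem ttow : S_TTOW := by
  intro B _ θ s L _ ι hlim γ Z n hfix
  let u : ∀ i, Gd B (wz s n i) →⋆ₙₐ[ℂ] Fix γ Z := fun i ↦
    { toFun := fun a ↦ ⟨ι i a.1, hfix.1 i a.1 a.2⟩
      map_smul' := fun c a ↦ Subtype.ext (map_smul (ι i) c a.1)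
      map_zero' := Subtype.ext (map_zero (ι i))
      map_add' := fun a b ↦ Subtype.ext (map_add (ι i) a.1 b.1)
      map_mul' := fun a b ↦ Subtype.ext (map_mul (ι i) a.1 b.1)
      map_star' := fun a ↦ Subtype.ext (map_star (ι i) a.1) }
  have hu : ∀ i a, ((u i a : Fix γ Z) : L) = ι i a.1 := fun i a ↦ rfl
  refine ⟨u, hu, ?_, ?_, ?_⟩
  · intro i a b hab
    have h1 : ι i a.1 = ι i b.1 := by
      rw [← hu, ← hu, hab]
    exact Subtype.ext (hlim.inj i h1)
  · intro i a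
    apply Subtype.ext
    rw [hu, hu]
    exact hlim.comp i a.1
  · rw [Metric.dense_iff]
    intro b r hr
    obtain ⟨i, a, ha, hb⟩ := hfix.2 b.1 b.2 r hr
    refine ⟨u i ⟨a, ha⟩, ?_, Set.mem_iUnion.2 ⟨i, ⟨a, ha⟩, rfl⟩⟩
    rw [Metric.mem_ball, dist_comm, dist_eq_norm]
    exact hb

end Pool.Agent.Helper91.CR
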