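import Pool.Agent.Helper39.CR.GoalsP

/-!
# Project CAR stage 5, packet ALGP: prime powers.
-/

open scoped ComplexOrder ZeroAtInfty
open TopologicalSpace

namespace Pool.Agent.Helper91.CR

open Pool.Agent.Helper39.CR Polynomial Finset

/-- `C(T)`. -/
def CE (M : Type) [AddCommGroup M] (T : AddMonoid.End M) : Prop :=
  (∀ y : ℕ → M, (∀ k, T (y (k + 1)) = y k) → ∀ k, y k = 0) ∧
    ∀ z : ℕ → M, ∃ t : ℕ → M, ∀ k, z k = t k - T (t (k + 1))

/-- The polynomial identity modulo `p`. -/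
theorem exists_W (p : ℕ) (hp : p.Prime) (m : ℕ) :
    ∃ W : ℤ[X], (1 - X : ℤ[X]) ^ (p ^ m) = 1 - X ^ (p ^ m) + C (p : ℤ) * W := by
  have : Fact p.Prime := ⟨hp⟩
  have h0 : ((1 - X : ℤ[X]) ^ (p ^ m) - (1 - X ^ (p ^ m))).map (Int.castRingHom (ZMod p)) = 0 := by
    simp only [Polynomial.map_sub, Polynomial.map_pow, Polynomial.map_one, Polynomial.map_X]
    rw [sub_pow_char_pow, one_pow, sub_self]
  have h1 : C (p : ℤ) ∣ (1 - X : ℤ[X]) ^ (p ^ m) - (1 - X ^ (p ^ m)) := by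
    rw [Polynomial.C_dvd_iff_dvd_coeff]
    intro i
    have h2 := congrArg (fun f ↦ f.coeff i) h0
    simp only [Polynomial.coeff_map, Polynomial.coeff_zero] at h2
    rw [eq_intCast] at h2
    exact (ZMod.intCast_zmod_eq_zero_iff_dvd _ p).1 h2
  obtain ⟨W, hW⟩ := h1
  exact ⟨W, by rw [← hW]; ring⟩

/-- The norm polynomial. -/
theorem exists_H (n : ℕ) : ∃ H : ℤ[X], C (n : ℤ) = ∑ i ∈ range n, X ^ i + (1 - X) * H := by
  have h1 : (X - C (1 : ℤ)) ∣ (∑ i ∈ range n, (X : ℤ[X]) ^ i) -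
      C ((∑ i ∈ range n, (X : ℤ[X]) ^ i).eval 1) := Polynomial.X_sub_C_dvd_sub_C_eval
  obtain ⟨H, hH⟩ := h1
  have h2 : (∑ i ∈ range n, (X : ℤ[X]) ^ i).eval 1 = (n : ℤ) := by
    rw [Polynomial.eval_finsetSum]
    simp
  rw [h2] at hH
  refine ⟨H, ?_⟩
  have h3 : (X - C (1 : ℤ)) * H = -((1 - X) * H) := by
    rw [Polynomial.C_1]; ring
  rw [h3] at hH
  linear_combination -hH

section

variable {n : ℕ} [NeZero n] (G : Type) [AddCommGroup G]

/-- The functions with sum zero. -/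
def M1 (n : ℕ) [NeZero n] (G : Type) [AddCommGroup G] : AddSubgroup (ZMod n → G) where
  carrier := {y | ∑ j, y j = 0}
  add_mem' {a b} ha hb := by
    change ∑ j, (a j + b j) = 0
    rw [sum_add_distrib]
    have h1 : ∑ j, a j = 0 := ha
    have h2 : ∑ j, b j = 0 := hb
    rw [h1, h2, add_zero]
  zero_mem' := by
    change ∑ j : ZMod n, (0 : G) = 0
    simp
  neg_mem' {a} ha := by
    change ∑ j, (-a j) = 0
    rw [sum_neg_distrib]
    have h1 : ∑ j, a j = 0 := ha
    rw [h1, neg_zero]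

theorem mem_M1 (y : ZMod n → G) : y ∈ M1 n G ↔ ∑ j, y j = 0 := Iff.rfl

/-- The shift. -/
def sh : AddMonoid.End (ZMod n → G) where
  toFun y := fun j ↦ y (j + 1)
  map_zero' := rfl
  map_add' _ _ := rfl

omit [NeZero n] in
theorem sh_apply (y : ZMod n → G) (j : ZMod n) : sh G y j = y (j + 1) := rfl

theorem sum_shift (y : ZMod n → G) (c : ZMod n) : ∑ j, y (j + c) = ∑ j, y j :=
  _root_.Equiv.sum_comp (Equiv.addRight c) y

/-- The shift on `M1`. -/
def sh1 : AddMonoid.End (M1 n G) where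
  toFun y := ⟨sh G y.1, by
    rw [mem_M1]
    have h1 : ∑ j, y.1 j = 0 := y.2
    rw [← h1]
    exact sum_shift G y.1 1⟩
  map_zero' := rfl
  map_add' a b := rfl

theorem sh1_apply (y : M1 n G) (j : ZMod n) : (sh1 G y).1 j = y.1 (j + 1) := rfl

theorem sh1_pow (k : ℕ) (y : M1 n G) (j : ZMod n) : ((sh1 G ^ k) y).1 j = y.1 (j + k) := by
  induction k generalizing y j with
  | zero => simp
  | succ k ih =>
    have h1 : (sh1 G ^ (k + 1)) y = (sh1 G ^ k) (sh1 G y) := by
      rw [pow_succ]; rfl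
    rw [h1, ih, sh1_apply]
    push_cast
    rw [add_assoc]

theorem sh1_pow_n : (sh1 G ^ n : AddMonoid.End (M1 n G)) = 1 := by
  ext y j
  rw [sh1_pow]
  simp

theorem sum_range_cast (f : ZMod n → G) : ∑ i ∈ range n, f (i : ZMod n) = ∑ x, f x := by
  refine sum_nbij' (fun i ↦ (i : ZMod n)) (fun x ↦ x.val) ?_ ?_ ?_ ?_ ?_
  · intro i _; exact mem_univ _
  · intro x _; exact mem_range.2 (ZMod.val_lt x)
  · intro i hi; exact ZMod.val_cast_of_lt (mem_range.1 hi)
  · intro x _; exact ZMod.natCast_zmod_val x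
  · intro i _; rfl

theorem sh1_norm : (∑ i ∈ range n, sh1 G ^ i : AddMonoid.End (M1 n G)) = 0 := by
  ext y j
  have h1 : ((∑ i ∈ range n, sh1 G ^ i : AddMonoid.End (M1 n G)) y).1 j =
      ∑ i ∈ range n, y.1 (j + (i : ZMod n)) := by
    have h2 : (∑ i ∈ range n, sh1 G ^ i : AddMonoid.End (M1 n G)) y =
        ∑ i ∈ range n, (sh1 G ^ i) y := by
      exact AddMonoidHom.finsetSum_apply _ _ _
    rw [h2, AddSubgroup.val_finsetSum, Finset.sum_apply]
    exact sum_congr rfl fun i _ ↦ sh1_pow G i y j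
  rw [h1, sum_range_cast G (fun x ↦ y.1 (j + x))]
  have h3 : ∑ x, y.1 (j + x) = ∑ x, y.1 x := _root_.Equiv.sum_comp (Equiv.addLeft j) y.1
  rw [h3]
  exact y.2

/-- `T = 1 - X` on `M1`. -/
def T1 : AddMonoid.End (M1 n G) := 1 - sh1 G

theorem T1_apply (y : M1 n G) (j : ZMod n) : (T1 G y).1 j = y.1 j - y.1 (j + 1) := rfl

/-- The elements of `M1` are differences. -/
theorem surj_T (m : ZMod n → G) (hm : ∑ j, m j = 0) :
    ∃ y : ZMod n → G, ∀ j, y j - y (j + 1) = m j := by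
  refine ⟨fun j ↦ -∑ l ∈ range j.val, m (l : ZMod n), fun j ↦ ?_⟩
  simp only
  have hjn : j.val < n := ZMod.val_lt j
  have hjc : ((j.val : ℕ) : ZMod n) = j := ZMod.natCast_zmod_val j
  rcases Nat.lt_or_ge (j.val + 1) n with h | h
  · have h1 : (j + 1).val = j.val + 1 := by
      have h2 : j + 1 = ((j.val + 1 : ℕ) : ZMod n) := by push_cast; rw [hjc]
      rw [h2]
      exact ZMod.val_cast_of_lt h
    rw [h1, sum_range_succ, hjc]
    abel
  · have h0 : j.val + 1 = n := by omega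
    have h1 : j + 1 = 0 := by
      have h2 : j + 1 = ((j.val + 1 : ℕ) : ZMod n) := by push_cast; rw [hjc]
      rw [h2, h0]
      exact ZMod.natCast_self n
    have h3 : ∑ l ∈ range (j.val + 1), m (l : ZMod n) = 0 := by
      rw [h0, sum_range_cast G m, hm]
    rw [sum_range_succ, hjc] at h3
    rw [h1, ZMod.val_zero, range_zero, sum_empty]
    rw [neg_zero, sub_zero]
    exact neg_eq_of_add_eq_zero_right h3

theorem diff_mem (y : ZMod n → G) : ∑ j, (y j - y (j + 1)) = 0 := by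
  rw [sum_sub_distrib, sum_shift G y 1, sub_self]

theorem part_a : LL n G ↔ CE (M1 n G) (T1 G) := by
  constructor
  · rintro ⟨h1, h2⟩
    refine ⟨?_, ?_⟩
    · intro y hy k
      ext j
      refine h1 (fun k j ↦ (y k).1 j) ?_ k j
      intro k j
      have := congrArg (fun v : M1 n G ↦ v.1 j) (hy k)
      exact this
    · intro z
      have hm : ∀ k, ∃ y : ZMod n → G, ∀ j, y j - y (j + 1) = (z k).1 j :=
        fun k ↦ surj_T G (z k).1 (z k).2
      choose m hm using hm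
      obtain ⟨t, ht⟩ := h2 m
      refine ⟨fun k ↦ ⟨fun j ↦ t k j - t k (j + 1), diff_mem G (t k)⟩, fun k ↦ ?_⟩
      ext j
      change (z k).1 j = (t k j - t k (j + 1)) -
        ((t (k + 1) j - t (k + 1) (j + 1)) - (t (k + 1) (j + 1) - t (k + 1) (j + 1 + 1)))
      rw [← hm k j, ht k j, ht k (j + 1)]
      abel
  · rintro ⟨h1, h2⟩
    refine ⟨?_, ?_⟩
    · intro y hy k j
      have hmem : ∀ k, y k ∈ M1 n G := by
        intro k
        have h3 : y k = fun j ↦ y (k + 1) j - y (k + 1) (j + 1) := by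
          funext j
          exact (hy k j).symm
        rw [h3]
        exact diff_mem G (y (k + 1))
      have h3 := h1 (fun k ↦ ⟨y k, hmem k⟩) (fun k ↦ by
        ext j
        exact hy k j) k
      exact congrArg (fun v : M1 n G ↦ v.1 j) h3
    · intro z
      obtain ⟨t, ht⟩ := h2 fun k ↦ ⟨fun j ↦ z k j - z k (j + 1), diff_mem G (z k)⟩
      refine ⟨fun k j ↦ z k j + (t (k + 1)).1 j, fun k j ↦ ?_⟩
      have h3 : z (k + 1) j - z (k + 1) (j + 1) =
          (t (k + 1)).1 j - ((t (k + 2)).1 j - (t (k + 2)).1 (j + 1)) :=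
        congrArg (fun v : M1 n G ↦ v.1 j) (ht (k + 1))
      have h4 : (t (k + 1)).1 j = (z (k + 1) j - z (k + 1) (j + 1)) +
          ((t (k + 2)).1 j - (t (k + 2)).1 (j + 1)) := by
        rw [h3]; abel
      change z k j = z k j + (t (k + 1)).1 j - ((z (k + 1) j + (t (k + 2)).1 j) -
        (z (k + 1) (j + 1) + (t (k + 2)).1 (j + 1)))
      rw [h4]
      abel

theorem part_c (p : ℕ) (hn : 2 ≤ n) :
    CE (M1 n G) ((p : ℕ) : AddMonoid.End (M1 n G)) ↔ PComp p G := by
  have happ : ∀ (y : M1 n G) (j : ZMod n),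
      ((((p : ℕ) : AddMonoid.End (M1 n G)) y)).1 j = p • y.1 j := by
    intro y j
    rw [AddMonoid.End.natCast_apply]
    rfl
  constructor
  · rintro ⟨h1, h2⟩
    have h01 : (0 : ZMod n) ≠ 1 := by
      have : Fact (1 < n) := ⟨by omega⟩
      exact zero_ne_one
    let em : G → M1 n G := fun g ↦ ⟨Pi.single 0 g - Pi.single 1 g, by
      change ∑ j, ((Pi.single 0 g - Pi.single 1 g : ZMod n → G) j) = 0
      simp [sum_sub_distrib]⟩
    have hem0 : ∀ g, (em g).1 0 = g := by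
      intro g
      change (Pi.single 0 g - Pi.single 1 g : ZMod n → G) 0 = g
      simp [h01]
    have hemp : ∀ g, ((p : ℕ) : AddMonoid.End (M1 n G)) (em g) = em (p • g) := by
      intro g
      ext j
      rw [happ]
      change p • ((Pi.single 0 g - Pi.single 1 g : ZMod n → G) j) =
        (Pi.single 0 (p • g) - Pi.single 1 (p • g) : ZMod n → G) j
      simp only [Pi.sub_apply, Pi.single_apply]
      split_ifs <;> simp
    refine ⟨?_, ?_⟩
    · intro y hy k
      have h3 := h1 (fun k ↦ em (y k)) (fun k ↦ by rw [hemp, hy]) k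
      have h4 := congrArg (fun v : M1 n G ↦ v.1 0) h3
      change (em (y k)).1 0 = 0 at h4
      rwa [hem0] at h4
    · intro z
      obtain ⟨t, ht⟩ := h2 fun k ↦ em (z k)
      refine ⟨fun k ↦ (t k).1 0, fun k ↦ ?_⟩
      have h4 := congrArg (fun v : M1 n G ↦ v.1 0) (ht k)
      change (em (z k)).1 0 = (t k).1 0 -
        (((p : ℕ) : AddMonoid.End (M1 n G)) (t (k + 1))).1 0 at h4
      rwa [hem0, happ] at h4
  · rintro ⟨h1, h2⟩
    refine ⟨?_, ?_⟩
    · intro y hy k
      ext j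
      refine h1 (fun k ↦ (y k).1 j) (fun k ↦ ?_) k
      rw [← happ, hy]
    · intro z
      choose t ht using fun j : ZMod n ↦ h2 fun k ↦ (z k).1 j
      have hsum : ∀ k, ∑ j, t j k = 0 := by
        refine h1 (fun k ↦ ∑ j, t j k) (fun k ↦ ?_)
        have h3 : ∑ j, (z k).1 j = ∑ j, t j k - p • ∑ j, t j (k + 1) := by
          rw [smul_sum, ← sum_sub_distrib]
          exact sum_congr rfl fun j _ ↦ ht j k
        have h4 : ∑ j, (z k).1 j = 0 := (z k).2
        rw [h4] at h3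
        exact (sub_eq_zero.1 h3.symm).symm
      refine ⟨fun k ↦ ⟨fun j ↦ t j k, hsum k⟩, fun k ↦ ?_⟩
      ext j
      change (z k).1 j = t j k - (((p : ℕ) : AddMonoid.End (M1 n G)) ⟨fun j ↦ t j (k + 1), _⟩).1 j
      rw [happ]
      exact ht j k

theorem part_b (hchn : S_CHN) (p e : ℕ) (hp : p.Prime) (hn : n = p ^ (e + 1)) :
    CE (M1 n G) (T1 G) ↔ CE (M1 n G) ((p : ℕ) : AddMonoid.End (M1 n G)) := by
  obtain ⟨W, hW⟩ := exists_W p hp (e + 1)
  obtain ⟨H, hH⟩ := exists_H n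
  rw [← hn] at hW
  have e1 : (T1 G) ^ n = ((p : ℕ) : AddMonoid.End (M1 n G)) * aeval (sh1 G) W := by
    have h1 := congrArg (aeval (sh1 (n := n) G)) hW
    simp only [map_pow, map_sub, map_one, aeval_X, map_add, map_mul, aeval_C] at h1
    rw [sh1_pow_n, sub_self, zero_add] at h1
    change (1 - sh1 G) ^ n = _
    rw [h1]
    simp
  have e2 : ((p : ℕ) : AddMonoid.End (M1 n G)) ^ (e + 1) = T1 G * aeval (sh1 G) H := by
    have h1 := congrArg (aeval (sh1 (n := n) G)) hH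
    simp only [map_pow, map_sub, map_one, aeval_X, map_add, map_mul, aeval_C, map_sum] at h1
    rw [sh1_norm, zero_add] at h1
    change _ = (1 - sh1 G) * _
    rw [← h1, eq_intCast, Int.cast_natCast, ← Nat.cast_pow]
    exact congrArg _ hn.symm
  have c2 : T1 G * aeval (sh1 G) H = aeval (sh1 G) H * T1 (n := n) G := by
    have h1 : T1 (n := n) G = aeval (sh1 G) (1 - X : ℤ[X]) := by
      simp [T1]
    rw [h1, ← map_mul, ← map_mul, mul_comm]
  constructor
  · exact hchn (M1 n G) ((p : ℕ) : AddMonoid.End (M1 n G)) (T1 G) (aeval (sh1 G) H) (e + 1)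
      (by omega) e2 c2
  · exact hchn (M1 n G) (T1 G) ((p : ℕ) : AddMonoid.End (M1 n G)) (aeval (sh1 G) W) n
      (Nat.one_le_iff_ne_zero.2 (NeZero.ne n)) e1 (Nat.cast_commute _ _)

end

theorem algp (hchn : S_CHN) : S_ALGP := by
  intro p hp e G _
  have hne : NeZero (p ^ (e + 1)) := ⟨pow_ne_zero _ hp.ne_zero⟩
  have h2 : 2 ≤ p ^ (e + 1) := by
    calc 2 ≤ p := hp.two_le
      _ = p ^ 1 := (pow_one p).symm
      _ ≤ p ^ (e + 1) := Nat.pow_le_pow_right hp.pos (by omega)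
  exact (part_a G).trans ((part_b G hchn p e hp rfl).trans (part_c G p h2))

end Pool.Agent.Helper91.CR
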