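import Pool.Agent.Helper39.CR.GoalsT

/-!
# Project CAR stage 3, packet TWS: all weights `0, .., i` occur at stage `i`.
-/

open scoped ComplexOrder ZeroAtInfty
open TopologicalSpace

namespace Pool.Agent.Helper91.CR

open Pool.Agent.Helper34.CAR Pool.Agent.Helper39.CR

theorem tws : S_TWS := by
  intro B _ θ s
  have hne : ∀ i, s.c1 i ≠ s.c0 i := fun i ↦ (s.step i).1.symm
  have h2 : ∀ i x, s.wt (i + 1) ((s.e i).symm (x, s.c0 i)) = s.wt i x + 1 := by
    intro i x
    simp [Sys.wt]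
  have h3 : ∀ i x, s.wt (i + 1) ((s.e i).symm (x, s.c1 i)) = s.wt i x := by
    intro i x
    simp [Sys.wt, hne i]
  have h1 : ∀ i : ℕ, ∀ j ≤ i, ∃ x, s.wt i x = j := by
    intro i
    induction i with
    | zero =>
      intro j hj
      exact ⟨s.s0, by rw [Nat.le_zero.1 hj]; rfl⟩
    | succ i ih =>
      intro j hj
      rcases Nat.lt_or_ge i j with h | h
      · obtain ⟨x, hx⟩ := ih i le_rfl
        exact ⟨_, (h2 i x).trans (by omega)⟩
      · obtain ⟨x, hx⟩ := ih j h
        exact ⟨_, (h3 i x).trans hx⟩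
  exact fun i ↦ ⟨h1 i, h2 i, h3 i⟩

end Pool.Agent.Helper91.CR
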