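import Pool.Agent.Helper39.CR.GoalsS
import Pool.Agent.Helper91.CR.TWS

/-!
# Project CAR stage 4, packet SPRD: a full corner spreads over all weights.
-/

open scoped ComplexOrder ZeroAtInfty
open TopologicalSpace

namespace Pool.Agent.Helper91.CR

open Pool.Agent.Helper34.CAR Pool.Agent.Helper39.CR

theorem single_mul_apply {I B : Type} [Fintype I] [DecidableEq I] [CStarAlgebra B] (x y : I)
    (b : B) (a : Mt I B) (i j : I) :
    (Mt.single x y b * a) i j = if i = x then b * a y j else 0 := by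
  rw [Mt.mul_apply, Finset.sum_eq_single y]
  · rw [Mt.single_apply]
    by_cases h : i = x
    · simp [h]
    · simp [h]
  · intro k _ hk
    rw [Mt.single_apply]
    simp [hk]
  · intro h
    exact absurd (Finset.mem_univ y) h

theorem mul_single_apply {I B : Type} [Fintype I] [DecidableEq I] [CStarAlgebra B] (x y : I)
    (b : B) (a : Mt I B) (i j : I) :
    (a * Mt.single x y b) i j = if j = y then a i x * b else 0 := by
  rw [Mt.mul_apply, Finset.sum_eq_single x]
  · rw [Mt.single_apply]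
    by_cases h : j = y
    · simp [h]
    · simp [h]
  · intro k _ hk
    rw [Mt.single_apply]
    simp [hk]
  · intro h
    exact absurd (Finset.mem_univ x) h

theorem sandwich {I B : Type} [Fintype I] [DecidableEq I] [CStarAlgebra B] (x : I)
    (a : Mt I B) : Mt.single x x 1 * a * Mt.single x x 1 = Mt.single x x (a x x) := by
  ext i j
  rw [mul_single_apply, single_mul_apply, Mt.single_apply]
  by_cases h : i = x <;> by_cases h2 : j = x <;> simp_all [eq_comm]

theorem single_mem_grd' {I Γ : Type} [Fintype I] [DecidableEq I] (B : Type) [CStarAlgebra B]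
    (w : I → Γ) (x y : I) (b : B) (h : w x = w y) : (Mt.single x y b : Mt I B) ∈ grd B w := by
  intro i j hij
  rw [Mt.single_apply, if_neg]
  intro h'
  obtain ⟨h1, h2⟩ := h'
  apply hij
  rw [h1, h2, h]

theorem sprd : S_SPRD := by
  intro B _ θ s n hn I hadd hzero hmul hkd k p hp
  have step1 : ∀ (k : ℕ) (p : s.S k), cd B (wz s n k) p 1 ∈ I k → ∀ c : s.C k,
      cd B (wz s n (k + 1)) ((s.e k).symm (p, c)) 1 ∈ I (k + 1) := by
    intro k p hp c
    have h1 := hmul (k + 1) (cd B (wz s n (k + 1)) ((s.e k).symm (p, c)) 1) _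
      (cd B (wz s n (k + 1)) ((s.e k).symm (p, c)) 1) (hkd k _ hp)
    have h2 : cd B (wz s n (k + 1)) ((s.e k).symm (p, c)) 1 *
        kd s n k (cd B (wz s n k) p 1) * cd B (wz s n (k + 1)) ((s.e k).symm (p, c)) 1 =
        cd B (wz s n (k + 1)) ((s.e k).symm (p, c)) 1 := by
      apply Subtype.ext
      change Mt.single _ _ (1 : B) * s.κ k (Mt.single p p 1) * Mt.single _ _ 1 = Mt.single _ _ 1
      rw [sandwich, Sys.κ_apply]
      simp only [Equiv.apply_symm_apply]
      rw [Mt.single_apply, if_pos ⟨rfl, rfl⟩, map_one, Mt.one_apply_eq]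
    rwa [h2] at h1
  have hwt0 : ∀ i x, s.wt (i + 1) ((s.e i).symm (x, s.c0 i)) = s.wt i x + 1 :=
    fun i ↦ (tws B θ s i).2.1
  have hwt1 : ∀ i x, s.wt (i + 1) ((s.e i).symm (x, s.c1 i)) = s.wt i x :=
    fun i ↦ (tws B θ s i).2.2
  have step2 : ∀ d : ℕ, ∀ r ≤ d, ∃ p' : s.S (k + d), s.wt (k + d) p' = s.wt k p + r ∧
      cd B (wz s n (k + d)) p' 1 ∈ I (k + d) := by
    intro d
    induction d with
    | zero =>
      intro r hr
      exact ⟨p, by rw [Nat.le_zero.1 hr]; rfl, hp⟩
    | succ d ih =>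
      intro r hr
      rcases Nat.lt_or_ge d r with h | h
      · obtain ⟨p', h1, h2⟩ := ih d le_rfl
        refine ⟨(s.e (k + d)).symm (p', s.c0 (k + d)), ?_, step1 _ p' h2 _⟩
        exact (hwt0 (k + d) p').trans (by rw [h1]; omega)
      · obtain ⟨p', h1, h2⟩ := ih r h
        exact ⟨(s.e (k + d)).symm (p', s.c1 (k + d)), (hwt1 (k + d) p').trans h1,
          step1 _ p' h2 _⟩
  have step3 : ∀ l : s.S (k + n), cd B (wz s n (k + n)) l 1 ∈ I (k + n) := by
    intro l
    have : NeZero n := ⟨by omega⟩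
    set r : ℕ := ((s.wt (k + n) l : ZMod n) - (s.wt k p : ZMod n)).val with hr
    have hrn : r ≤ n := (ZMod.val_lt _).le
    obtain ⟨p', h1, h2⟩ := step2 n r hrn
    have hw : wz s n (k + n) l = wz s n (k + n) p' := by
      change ((s.wt (k + n) l : ℕ) : ZMod n) = ((s.wt (k + n) p' : ℕ) : ZMod n)
      rw [h1, Nat.cast_add, hr, ZMod.natCast_zmod_val]
      ring
    let x1 : Gd B (wz s n (k + n)) := ⟨Mt.single l p' 1, single_mem_grd' B _ l p' 1 hw⟩
    let x2 : Gd B (wz s n (k + n)) := ⟨Mt.single p' l 1, single_mem_grd' B _ p' l 1 hw.symm⟩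
    have h3 := hmul (k + n) x1 _ x2 h2
    have h4 : x1 * cd B (wz s n (k + n)) p' 1 * x2 = cd B (wz s n (k + n)) l 1 := by
      apply Subtype.ext
      change Mt.single l p' (1 : B) * Mt.single p' p' 1 * Mt.single p' l 1 = Mt.single l l 1
      rw [Mt.single_mul_single, Mt.single_mul_single, mul_one, mul_one]
    rwa [h4] at h3
  exact Finset.sum_induction _ (fun a ↦ a ∈ I (k + n)) (fun a b ha hb ↦ hadd _ a b ha hb)
    (hzero _) (fun x _ ↦ step3 x)

end Pool.Agent.Helper91.CR
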