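import Pool.Agent.Helper39.CR.GoalsT

/-!
# Project CAR stage 3, packet TZ: zero maps, zero algebras, matrix algebras in a theory.
-/

open scoped ComplexOrder ZeroAtInfty
open TopologicalSpace

namespace Pool.Agent.Helper91.CR

open Pool.Agent.Helper39.CR

theorem tz : S_TZ := by
  intro T
  have h1 : ∀ (i : ZMod 2) (A B : Type) [NonUnitalCStarAlgebra A] [NonUnitalCStarAlgebra B]
      [SeparableSpace A] [SeparableSpace B] (f : A →⋆ₙₐ[ℂ] B), (∀ a, f a = 0) →
      ∀ x, T.map i f x = 0 := by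
    intro i A B _ _ _ _ f hf x
    have e : f = (0 : ℂ →⋆ₙₐ[ℂ] B).comp (0 : A →⋆ₙₐ[ℂ] ℂ) := by
      ext a
      rw [hf a]
      rfl
    rw [e, T.map_comp, T.point i (T.map i (0 : ℂ →⋆ₙₐ[ℂ] B) x), map_zero]
  have h2 : ∀ (A : Type) [NonUnitalCStarAlgebra A], (∀ a : A, a = 0) → T.Zero A := by
    intro A _ hA i x
    have hsub : Subsingleton A := ⟨fun a b ↦ by rw [hA a, hA b]⟩
    have hsep : SeparableSpace A := ⟨⟨Set.univ, (Set.subsingleton_of_subsingleton).countable,
      dense_univ⟩⟩
    have := h1 i A A (NonUnitalStarAlgHom.id ℂ A) (fun a ↦ hA _) x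
    rwa [T.map_id] at this
  refine ⟨h1, h2, ?_⟩
  intro M ι _ _ _ e he
  by_cases hne : Nonempty ι
  · obtain ⟨j⟩ := hne
    let h : ℂ →⋆ₙₐ[ℂ] M :=
      { toFun := fun a ↦ e j j a
        map_smul' := fun c a ↦ map_smul (e j j) c a
        map_zero' := map_zero (e j j)
        map_add' := fun a b ↦ map_add (e j j) a b
        map_mul' := fun a b ↦ (he.mul j j j a b).symm
        map_star' := fun a ↦ (he.star j j a).symm }
    intro i x
    have hb := T.stable i ℂ M ι e he j h (fun a ↦ rfl)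
    apply hb.1
    rw [map_zero]
    exact T.point i _
  · have hM : ∀ x : M, x = 0 := by
      intro x
      obtain ⟨f, hf⟩ := he.span x
      have hem : IsEmpty ι := not_nonempty_iff.1 hne
      rw [hf, Finset.univ_eq_empty, Finset.sum_empty]
    exact h2 M hM

end Pool.Agent.Helper91.CR
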